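import Pool.Agent.Q38.GE.Stm

set_option autoImplicit false

namespace Pool.Agent.Q162.GE

open Q38.GE Module Submodule

section

variable {D V : Type} [DivisionRing D] [AddCommGroup V] [Module D V]

theorem nil_le (t : Module.End D V) (ht : IsNilpotent t) (W' Z : Submodule D V)
    (hW : W'.map t ≤ W') (hZ : Z ≤ Z.map t ⊔ W') : Z ≤ W' := by
  have hWk : ∀ k : ℕ, W'.map (t ^ k) ≤ W' := by
    intro k
    induction k with
    | zero =>
      rw [pow_zero]
      exact (Submodule.map_id W').le
    | succ k ih =>
      rw [pow_succ, Module.End.mul_eq_comp, Submodule.map_comp]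
      exact (Submodule.map_mono hW).trans ih
  have hk : ∀ k : ℕ, Z ≤ Z.map (t ^ k) ⊔ W' := by
    intro k
    induction k with
    | zero =>
      rw [pow_zero]
      exact (Submodule.map_id Z).ge.trans le_sup_left
    | succ k ih =>
      refine ih.trans (sup_le ?_ le_sup_right)
      refine (Submodule.map_mono hZ).trans ?_
      rw [Submodule.map_sup, ← Submodule.map_comp, ← Module.End.mul_eq_comp, ← pow_succ]
      exact sup_le le_sup_left ((hWk k).trans le_sup_right)
  obtain ⟨k, hk0⟩ := ht
  have h1 := hk k
  rw [hk0, Submodule.map_zero, bot_sup_eq] at h1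
  exact h1

variable [FiniteDimensional D V]

theorem lev_rel (S : Set (Module.End D V)) (hS : ∀ a ∈ S, ∀ b ∈ S, a * b ∈ S)
    (hn : ∀ a ∈ S, IsNilpotent a) :
    ∀ (N : ℕ) (W' W : Submodule D V), W' ≤ W → (∀ s ∈ S, W'.map s ≤ W') →
      (∀ s ∈ S, W.map s ≤ W) → finrank D W ≤ finrank D W' + N →
      ∀ l : List (Module.End D V), (∀ a ∈ l, a ∈ S) → finrank D W ≤ finrank D W' + l.length →
        W.map l.prod ≤ W' := by
  intro N
  induction N using Nat.strong_induction_on with
  | _ N ih =>
  intro W' W hle hW' hW hN l hl hlen
  by_cases hall : ∀ a ∈ S, W.map a ≤ W'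
  · cases l with
    | nil =>
      have h1 : W' = W := Submodule.eq_of_le_of_finrank_le hle (by simpa using hlen)
      rw [List.prod_nil, h1]
      exact (Submodule.map_id W).le
    | cons a l =>
      have h2 : W.map l.prod ≤ W := by
        clear hlen
        have h3 : ∀ b ∈ l, b ∈ S := fun b hb => hl b (List.mem_cons_of_mem a hb)
        clear hl
        induction l with
        | nil =>
          rw [List.prod_nil]
          exact (Submodule.map_id W).le
        | cons b l ih2 =>
          rw [List.prod_cons, Module.End.mul_eq_comp, Submodule.map_comp]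
          exact (Submodule.map_mono (ih2 fun c hc => h3 c (List.mem_cons_of_mem b hc))).trans
            (hW b (h3 b List.mem_cons_self))
      rw [List.prod_cons, Module.End.mul_eq_comp, Submodule.map_comp]
      exact (Submodule.map_mono h2).trans (hall a (hl a List.mem_cons_self))
  · push_neg at hall
    obtain ⟨a0, ha0S, ha0⟩ := hall
    obtain ⟨a, ⟨haS, ha⟩, hmin⟩ :=
      (measure (fun a : Module.End D V => finrank D (W.map a ⊔ W' : Submodule D V))).wf.has_min
        {a | a ∈ S ∧ ¬ W.map a ≤ W'} ⟨a0, ha0S, ha0⟩
    -- the products `t a` with `t ∈ S` and `t a W ⊆ a W`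
    have hB : ∀ t ∈ S, W.map (t * a) ≤ W.map a → W.map (t * a) ≤ W' := by
      intro t ht hta
      by_contra h
      have h1 : finrank D (W.map a ⊔ W' : Submodule D V) ≤
          finrank D (W.map (t * a) ⊔ W' : Submodule D V) :=
        not_lt.1 (hmin (t * a) ⟨hS t ht a haS, h⟩)
      have h2 : W.map (t * a) ⊔ W' = W.map a ⊔ W' :=
        Submodule.eq_of_le_of_finrank_le (sup_le_sup_right hta W') h1
      have h3 : W.map a ⊔ W' ≤ W' := by
        refine nil_le t (hn t ht) W' _ (hW' t ht) ?_
        rw [← h2, Module.End.mul_eq_comp, Submodule.map_comp]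
        refine sup_le_sup_right (Submodule.map_mono ?_) W'
        rw [← Submodule.map_comp, ← Module.End.mul_eq_comp, h2]
        exact le_sup_left
      exact ha (le_sup_left.trans h3)
    have haW : W.map a ≤ W := hW a haS
    have hB1 : W.map (a * a) ≤ W' := by
      refine hB a haS ?_
      rw [Module.End.mul_eq_comp, Submodule.map_comp]
      exact Submodule.map_mono haW
    have hB2 : ∀ c ∈ S, W.map (a * c * a) ≤ W' := by
      intro c hc
      refine hB (a * c) (hS a haS c hc) ?_
      rw [mul_assoc, Module.End.mul_eq_comp, Submodule.map_comp, Module.End.mul_eq_comp c a,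
        Submodule.map_comp]
      exact Submodule.map_mono ((Submodule.map_mono haW).trans (hW c hc))
    obtain ⟨U, hU⟩ : ∃ U : Submodule D V, U = (W.map a ⊔ ⨆ s ∈ S, W.map (s * a)) ⊔ W' := ⟨_, rfl⟩
    have hUW : U ≤ W := by
      rw [hU]
      refine sup_le (sup_le haW (iSup₂_le fun s hs => hW (s * a) (hS s hs a haS))) hle
    have hW'U : W' ≤ U := by
      rw [hU]
      exact le_sup_right
    have haU : W.map a ≤ U := by
      rw [hU]
      exact le_sup_left.trans le_sup_left
    have hsU : ∀ s ∈ S, W.map (s * a) ≤ U := by
      intro s hs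
      rw [hU]
      refine le_trans ?_ (le_sup_left.trans' le_sup_right)
      exact le_iSup₂_of_le s hs le_rfl
    have hUinv : ∀ s ∈ S, U.map s ≤ U := by
      intro s hs
      conv_lhs => rw [hU]
      rw [Submodule.map_sup, Submodule.map_sup]
      refine sup_le (sup_le ?_ ?_) ((hW' s hs).trans hW'U)
      · rw [← Submodule.map_comp, ← Module.End.mul_eq_comp]
        exact hsU s hs
      · rw [Submodule.map_iSup]
        refine iSup_le fun c => ?_
        rw [Submodule.map_iSup]
        refine iSup_le fun hc => ?_
        rw [← Submodule.map_comp, ← Module.End.mul_eq_comp, ← mul_assoc]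
        exact hsU _ (hS s hs c hc)
    have haU' : U.map a ≤ W' := by
      conv_lhs => rw [hU]
      rw [Submodule.map_sup, Submodule.map_sup]
      refine sup_le (sup_le ?_ ?_) (hW' a haS)
      · rw [← Submodule.map_comp, ← Module.End.mul_eq_comp]
        exact hB1
      · rw [Submodule.map_iSup]
        refine iSup_le fun c => ?_
        rw [Submodule.map_iSup]
        refine iSup_le fun hc => ?_
        rw [← Submodule.map_comp, ← Module.End.mul_eq_comp, ← mul_assoc]
        exact hB2 c hc
    have hlt1 : W' < U := by
      refine lt_of_le_of_ne hW'U fun h => ha ?_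
      rw [h]
      exact haU
    have hlt2 : U < W := by
      refine lt_of_le_of_ne hUW fun h => ha ?_
      rw [← h]
      exact haU'
    have f1 := Submodule.finrank_lt_finrank_of_lt hlt1
    have f2 := Submodule.finrank_lt_finrank_of_lt hlt2
    set p := finrank D U - finrank D W' with hp
    have hsplit : l.prod = (l.take p).prod * (l.drop p).prod := by
      rw [← List.prod_append, List.take_append_drop]
    rw [hsplit, Module.End.mul_eq_comp, Submodule.map_comp]
    have g1 : W.map (l.drop p).prod ≤ U := by
      refine ih (N - 1) (by omega) U W hUW hUinv hW (by omega) _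
        (fun b hb => hl b (List.mem_of_mem_drop hb)) ?_
      rw [List.length_drop]
      omega
    have g2 : U.map (l.take p).prod ≤ W' := by
      refine ih (N - 1) (by omega) W' U hW'U hW' hUinv (by omega) _
        (fun b hb => hl b (List.mem_of_mem_take hb)) ?_
      rw [List.length_take]
      omega
    exact (Submodule.map_mono g1).trans g2

end

theorem lev : S_LEV := by
  intro D _ V _ _ _ S hS hn l hl hlen
  have h := lev_rel S hS hn (finrank D V) ⊥ ⊤ bot_le
    (fun s _ => by rw [Submodule.map_bot]) (fun s _ => le_top)
    (by rw [finrank_top, finrank_bot, zero_add]) l hl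
    (by rw [finrank_top, finrank_bot, zero_add]; exact hlen)
  ext v
  have h1 : l.prod v ∈ (⊤ : Submodule D V).map l.prod := Submodule.mem_map_of_mem trivial
  exact (Submodule.mem_bot D).1 (h h1)

end Pool.Agent.Q162.GE
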